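import Pool.Agent.Q2.SP.Ring

set_option autoImplicit false

open Quaternion

namespace Q2.SP

/-- the dicyclic group of order 12 -/
abbrev Dic : Type := QuaternionGroup 3

instance : NeZero (2 * 3) := ⟨by norm_num⟩

section lift
variable {N : Type*} [Monoid N] (u v : N) (h6 : u ^ 6 = 1) (h3 : v * v = u ^ 3)
  (hc : u * v = v * u ^ 5)

include h6 in
theorem pow_mod6 (m n : ℕ) (h : m % 6 = n % 6) : u ^ m = u ^ n := by
  have key : ∀ m, u ^ m = u ^ (m % 6) := by
    intro m
    conv_lhs => rw [← Nat.mod_add_div m 6, pow_add, pow_mul, h6, one_pow, mul_one]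
  rw [key m, key n, h]

include hc in
theorem pow_comm' (m : ℕ) : u ^ m * v = v * u ^ (5 * m) := by
  induction m with
  | zero => simp
  | succ m ih =>
    rw [pow_succ, mul_assoc, hc, ← mul_assoc, ih, mul_assoc, ← pow_add]
    congr 2

/-- underlying function of homomorphisms out of the dicyclic group -/
def dicFun : Dic → N
  | QuaternionGroup.a i => u ^ (ZMod.val (i : ZMod 6))
  | QuaternionGroup.xa i => v * u ^ (ZMod.val (i : ZMod 6))

include h6 h3 hc in
theorem dicFun_mul (g h : Dic) : dicFun u v (g * h) = dicFun u v g * dicFun u v h := by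
  have e1 : ∀ i j : ZMod 6, (ZMod.val (i + j)) % 6 = (ZMod.val i + ZMod.val j) % 6 := by decide
  have e2 : ∀ i j : ZMod 6, (ZMod.val (j - i)) % 6 = (5 * ZMod.val i + ZMod.val j) % 6 := by decide
  have e3 : ∀ i j : ZMod 6, (ZMod.val (3 + j - i)) % 6 = (3 + (5 * ZMod.val i + ZMod.val j)) % 6 := by
    decide
  cases g with
  | a i =>
    cases h with
    | a j =>
      rw [QuaternionGroup.a_mul_a]
      change u ^ (ZMod.val ((i : ZMod 6) + j)) = u ^ _ * u ^ _
      rw [← pow_add]
      exact pow_mod6 u h6 _ _ (e1 i j)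
    | xa j =>
      rw [QuaternionGroup.a_mul_xa]
      change v * u ^ (ZMod.val ((j : ZMod 6) - i)) = u ^ _ * (v * u ^ _)
      rw [← mul_assoc, pow_comm' u v hc, mul_assoc, ← pow_add]
      congr 1
      exact pow_mod6 u h6 _ _ (e2 i j)
  | xa i =>
    cases h with
    | a j =>
      rw [QuaternionGroup.xa_mul_a]
      change v * u ^ (ZMod.val ((i : ZMod 6) + j)) = (v * u ^ _) * u ^ _
      rw [mul_assoc, ← pow_add]
      congr 1
      exact pow_mod6 u h6 _ _ (e1 i j)
    | xa j =>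
      rw [QuaternionGroup.xa_mul_xa]
      change u ^ (ZMod.val ((3 : ZMod 6) + j - i)) = (v * u ^ _) * (v * u ^ _)
      have : (v * u ^ (ZMod.val (i : ZMod 6))) * (v * u ^ (ZMod.val (j : ZMod 6))) =
          v * (u ^ (ZMod.val (i : ZMod 6)) * v) * u ^ (ZMod.val (j : ZMod 6)) := by
        simp only [mul_assoc]
      rw [this, pow_comm' u v hc, ← mul_assoc, h3, mul_assoc, ← pow_add, ← pow_add]
      exact pow_mod6 u h6 _ _ (e3 i j)

/-- homomorphisms out of the dicyclic group -/
def dicHom : Dic →* N where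
  toFun := dicFun u v
  map_one' := by
    change u ^ (ZMod.val (0 : ZMod 6)) = 1
    simp
  map_mul' := dicFun_mul u v h6 h3 hc

end lift

/-! ### the quaternion order -/

section quat
variable (A : Type) [CommRing A]

/-- the quaternion algebra with i^2 = i - 1, j^2 = -1 -/
abbrev Qt : Type := ℍ[A,-1,1,-1]

/-- sixth root of unity -/
def qu : Qt A := ⟨0, 1, 0, 0⟩
/-- square root of -1 -/
def qv : Qt A := ⟨0, 0, 1, 0⟩

theorem qu2 : qu A ^ 2 = ⟨-1, 1, 0, 0⟩ := by
  rw [pow_two]; ext <;> simp [qu]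
theorem qu3 : qu A ^ 3 = -1 := by
  rw [pow_succ, qu2]; ext <;> simp [qu]
theorem qu6 : qu A ^ 6 = 1 := by
  have : qu A ^ 6 = (qu A ^ 3) ^ 2 := by rw [← pow_mul]
  rw [this, qu3]; simp
theorem qv2 : qv A * qv A = qu A ^ 3 := by
  rw [qu3]; ext <;> simp [qv]
theorem qu5 : qu A ^ 5 = ⟨1, -1, 0, 0⟩ := by
  have : qu A ^ 5 = qu A ^ 3 * qu A ^ 2 := by rw [← pow_add]
  rw [this, qu3, qu2]; ext <;> simp
theorem quv : qu A * qv A = qv A * qu A ^ 5 := by
  rw [qu5]; ext <;> simp [qu, qv]

/-- the group homomorphism -/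
def qHom : Dic →* Qt A := dicHom (qu A) (qv A) (qu6 A) (qv2 A) (quv A)

/-- the ring homomorphism from the group ring -/
noncomputable def psi : MonoidAlgebra A Dic →+* Qt A :=
  (MonoidAlgebra.lift A (Qt A) Dic (qHom A)).toRingHom

end quat

theorem idem_quat (q : Qt (ZLoc 2)) (h : q * q = q) : q = 0 ∨ q = 1 := by
  have h0 := congrArg QuaternionAlgebra.re h
  have h1 := congrArg QuaternionAlgebra.imI h
  have h2 := congrArg QuaternionAlgebra.imJ h
  have h3 := congrArg QuaternionAlgebra.imK h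
  simp only [QuaternionAlgebra.re_mul, QuaternionAlgebra.imI_mul, QuaternionAlgebra.imJ_mul,
    QuaternionAlgebra.imK_mul] at h0 h1 h2 h3
  by_cases ht : 2 * q.re + q.imI = 1
  · exfalso
    have g0 := congrArg (fun t : ZLoc 2 => (t : ℚ)) h0
    have gt : (2 : ℚ) * (q.re : ℚ) + (q.imI : ℚ) = 1 :=
      congrArg (fun t : ZLoc 2 => (t : ℚ)) ht
    push_cast at g0
    have hb : (q.imI : ℚ) = 1 - 2 * (q.re : ℚ) := by linarith
    rw [hb] at g0
    nlinarith [sq_nonneg ((q.re : ℚ) - 1/2), sq_nonneg ((q.imJ : ℚ) + (q.imK : ℚ)),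
      sq_nonneg (q.imJ : ℚ), sq_nonneg (q.imK : ℚ)]
  · have hne : 2 * q.re + q.imI - 1 ≠ 0 := sub_ne_zero.2 ht
    have k1 : (2 * q.re + q.imI - 1) * q.imI = 0 := by linear_combination h1
    have k2 : (2 * q.re + q.imI - 1) * q.imJ = 0 := by linear_combination h2
    have k3 : (2 * q.re + q.imI - 1) * q.imK = 0 := by linear_combination h3
    have e1 := (mul_eq_zero.1 k1).resolve_left hne
    have e2 := (mul_eq_zero.1 k2).resolve_left hne
    have e3 := (mul_eq_zero.1 k3).resolve_left hne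
    rw [e1, e2, e3] at h0
    have h4 : q.re * (q.re - 1) = 0 := by linear_combination h0
    rcases mul_eq_zero.1 h4 with h5 | h5
    · left; ext <;> simp [h5, e1, e2, e3]
    · right
      have h6 : q.re = 1 := sub_eq_zero.1 h5
      ext <;> simp [h6, e1, e2, e3]

end Q2.SP
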