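import Pool.Agent.Q2.SP.Defs
import Pool.Agent.Q2.SP.Group

set_option autoImplicit false

open CategoryTheory

namespace Q2.SP

/-! ### generators -/

theorem dic_gen (g : Dic) : ∃ n : ℕ, g = QuaternionGroup.a 1 ^ n ∨
    g = QuaternionGroup.xa 0 * QuaternionGroup.a 1 ^ n := by
  cases g with
  | a i =>
    refine ⟨ZMod.val (i : ZMod 6), Or.inl ?_⟩
    rw [QuaternionGroup.a_one_pow]
    congr 1
    exact (ZMod.natCast_zmod_val (n := 6) i).symm
  | xa i =>
    refine ⟨ZMod.val (i : ZMod 6), Or.inr ?_⟩
    rw [QuaternionGroup.a_one_pow, QuaternionGroup.xa_mul_a, zero_add]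
    congr 1
    exact (ZMod.natCast_zmod_val (n := 6) i).symm

/-- A property of group elements closed under products holds if it holds for generators. -/
theorem dic_induct (Pr : Dic → Prop) (h1 : Pr 1) (ha : Pr (QuaternionGroup.a 1))
    (hx : Pr (QuaternionGroup.xa 0)) (hm : ∀ g h, Pr g → Pr h → Pr (g * h)) (g : Dic) : Pr g := by
  have hp : ∀ n : ℕ, Pr (QuaternionGroup.a 1 ^ n) := by
    intro n
    induction n with
    | zero => simpa using h1
    | succ n ih => rw [pow_succ]; exact hm _ _ ih ha
  obtain ⟨n, rfl | rfl⟩ := dic_gen g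
  · exact hp n
  · exact hm _ _ hx (hp n)

/-- homs -/
noncomputable def mkHomD {k : Type} [Field k] (A B : Rep.{0} k Dic) (f : A.V →ₗ[k] B.V)
    (ha : ∀ v, f (A.ρ (QuaternionGroup.a 1) v) = B.ρ (QuaternionGroup.a 1) (f v))
    (hx : ∀ v, f (A.ρ (QuaternionGroup.xa 0) v) = B.ρ (QuaternionGroup.xa 0) (f v)) : A ⟶ B :=
  ConcreteCategory.ofHom (C := Rep.{0} k Dic) ⟨f, by
    intro g
    ext v
    simp only [LinearMap.comp_apply]
    revert v
    refine dic_induct (fun g => ∀ v, f (A.ρ g v) = B.ρ g (f v)) ?_ ha hx ?_ g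
    · intro v; simp
    · intro g h hg hh v
      rw [map_mul, map_mul, Module.End.mul_apply, Module.End.mul_apply, hg, hh]⟩

/-! ### the two-dimensional representation -/
section
variable (A : Type) [CommRing A]

/-- generator a -/
def r2a : (A × A) →ₗ[A] (A × A) where
  toFun v := (-v.1 + v.2, -v.1)
  map_add' u v := by ext <;> simp <;> ring
  map_smul' c v := by ext <;> simp; ring

/-- generator x -/
def r2x : (A × A) →ₗ[A] (A × A) where
  toFun v := (v.1 - v.2, -v.2)
  map_add' u v := by ext <;> simp <;> ring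
  map_smul' c v := by ext <;> simp; ring

theorem r2a3 : (r2a A : Module.End A (A × A)) ^ 3 = 1 := by
  apply LinearMap.ext
  intro v
  rw [pow_succ, pow_two]
  simp [r2a, Module.End.mul_apply]

/-- the representation -/
def rho2 : Representation A Dic (A × A) :=
  dicHom (N := Module.End A (A × A)) (r2a A) (r2x A)
    (by
      have : (r2a A : Module.End A (A × A)) ^ 6 = ((r2a A : Module.End A (A × A)) ^ 3) ^ 2 := by
        rw [← pow_mul]
      rw [this, r2a3, one_pow])
    (by
      rw [r2a3]
      apply LinearMap.ext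
      intro v
      simp [r2x, Module.End.mul_apply])
    (by
      have : (r2a A : Module.End A (A × A)) ^ 5 = (r2a A : Module.End A (A × A)) ^ 3 * r2a A ^ 2 := by
        rw [← pow_add]
      rw [this, r2a3, one_mul]
      apply LinearMap.ext
      intro v
      simp only [r2x, r2a, Module.End.mul_apply, pow_two, LinearMap.coe_mk, AddHom.coe_mk]
      ext <;> ring)

theorem rho2_a (v : A × A) : rho2 A (QuaternionGroup.a 1) v = (-v.1 + v.2, -v.1) := by
  change ((r2a A : Module.End A (A × A)) ^ (ZMod.val (1 : ZMod 6))) v = _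
  have : ZMod.val (1 : ZMod 6) = 1 := rfl
  rw [this, pow_one]; rfl

theorem rho2_x (v : A × A) : rho2 A (QuaternionGroup.xa 0) v = (v.1 - v.2, -v.2) := by
  change ((r2x A : Module.End A (A × A)) * (r2a A : Module.End A (A × A)) ^ (ZMod.val (0 : ZMod 6))) v = _
  have : ZMod.val (0 : ZMod 6) = 0 := rfl
  rw [this, pow_zero, mul_one]; rfl

end

theorem rho2_map {A B : Type} [CommRing A] [CommRing B] (f : A →+* B) (g : Dic) (v : A × A) :
    (f (rho2 A g v).1, f (rho2 A g v).2) = rho2 B g (f v.1, f v.2) := by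
  revert v
  refine dic_induct (fun g => ∀ v : A × A, (f (rho2 A g v).1, f (rho2 A g v).2) =
    rho2 B g (f v.1, f v.2)) ?_ ?_ ?_ ?_ g
  · intro v; simp
  · intro v; rw [rho2_a, rho2_a]; simp
  · intro v; rw [rho2_x, rho2_x]; simp
  · intro g h hg hh v
    rw [map_mul, map_mul, Module.End.mul_apply, Module.End.mul_apply, hg, hh]

/-- two-dimensional representation -/
noncomputable abbrev R2 (k : Type) [Field k] : Rep.{0} k Dic := Rep.of (rho2 k)
/-- trivial representation -/
noncomputable abbrev R1 (k : Type) [Field k] : Rep.{0} k Dic := Rep.trivial k Dic k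

theorem R1_irred : (R1 ℚ).ρ.IsIrreducible where
  exists_pair_ne := by
    refine ⟨⟨⊥, by simp⟩, ⟨⊤, by simp⟩, ?_⟩
    intro h
    have := congrArg Subrepresentation.toSubmodule h
    exact bot_ne_top this
  eq_bot_or_eq_top := by
    intro U
    rcases eq_bot_or_eq_top (α := Submodule ℚ ℚ) U.toSubmodule with h | h
    · left
      apply Subrepresentation.toSubmodule_injective
      exact h
    · right
      apply Subrepresentation.toSubmodule_injective
      exact h

theorem R2_irred : (R2 ℚ).ρ.IsIrreducible where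
  exists_pair_ne := by
    refine ⟨⟨⊥, by simp⟩, ⟨⊤, by simp⟩, ?_⟩
    intro h
    have := congrArg Subrepresentation.toSubmodule h
    exact bot_ne_top this
  eq_bot_or_eq_top := by
    intro U
    by_cases hU : ∃ v : ℚ × ℚ, v ∈ U.toSubmodule ∧ v ≠ 0
    · right
      apply Subrepresentation.toSubmodule_injective
      change U.toSubmodule = (⊤ : Submodule ℚ (ℚ × ℚ))
      rw [eq_top_iff]
      obtain ⟨⟨s, t⟩, hv, hne⟩ := hU
      have hav : ((-s + t, -s) : ℚ × ℚ) ∈ U.toSubmodule := by
        have h1 := U.apply_mem_toSubmodule (QuaternionGroup.a 1) hv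
        have h2 : (R2 ℚ).ρ (QuaternionGroup.a 1) (s, t) = (-s + t, -s) := rho2_a ℚ (s, t)
        rwa [h2] at h1
      have hd : s ^ 2 - s * t + t ^ 2 ≠ 0 := by
        intro h0
        have h3 : s = 0 ∧ t = 0 := by
          constructor
          · nlinarith [sq_nonneg (s - 2 * t), sq_nonneg s, sq_nonneg t]
          · nlinarith [sq_nonneg (2 * s - t), sq_nonneg s, sq_nonneg t]
        exact hne (by rw [h3.1, h3.2]; rfl)
      rintro ⟨p, q⟩ -
      have h4 : ((p, q) : ℚ × ℚ) = ((p * s + q * (t - s)) / (s ^ 2 - s * t + t ^ 2)) • ((s, t) : ℚ × ℚ) +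
          ((p * t - q * s) / (s ^ 2 - s * t + t ^ 2)) • ((-s + t, -s) : ℚ × ℚ) := by
        ext
        · simp only [Prod.smul_mk, Prod.mk_add_mk, smul_eq_mul]
          rw [div_mul_eq_mul_div, div_mul_eq_mul_div, ← add_div, eq_div_iff hd]
          ring
        · simp only [Prod.smul_mk, Prod.mk_add_mk, smul_eq_mul]
          rw [div_mul_eq_mul_div, div_mul_eq_mul_div, ← add_div, eq_div_iff hd]
          ring
      rw [h4]
      exact U.toSubmodule.add_mem (U.toSubmodule.smul_mem _ hv) (U.toSubmodule.smul_mem _ hav)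
    · left
      apply Subrepresentation.toSubmodule_injective
      change U.toSubmodule = (⊥ : Submodule ℚ (ℚ × ℚ))
      rw [Submodule.eq_bot_iff]
      intro v hv
      by_contra hne
      exact hU ⟨v, hv, hne⟩

end Q2.SP
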