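import Pool.Agent.Q2.SP.CondN

set_option autoImplicit false

open CategoryTheory

namespace Q2.SP

theorem red1 : IsReduction 2 (R1 ℚ) (R1 (ZMod 2)) := by
  refine ⟨Rep.trivial (ZLoc 2) Dic (ZLoc 2), fun x : ZLoc 2 => (x : ℚ), fun x : ZLoc 2 => res 2 x,
    inferInstanceAs (Module.Finite (ZLoc 2) (ZLoc 2)), ⟨fun _ _ => rfl, Subtype.val_injective⟩,
    fun _ _ => rfl, fun _ _ => rfl, ?_, ⟨map_add (res 2), res_surjective 2, ?_⟩, fun _ _ => rfl⟩
  · unfold Spans
    rw [eq_top_iff]
    intro x _
    have h1 : (1 : ℚ) ∈ Set.range (fun x : ZLoc 2 => (x : ℚ)) := ⟨1, rfl⟩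
    have : x = x • (1 : ℚ) := (mul_one x).symm
    rw [this]
    exact Submodule.smul_mem _ _ (Submodule.subset_span h1)
  · intro u
    have := res_eq_zero 2 u
    change res 2 u = 0 ↔ _
    rw [this]
    simp only [nsmul_eq_mul]

theorem red2 : IsReduction 2 (R2 ℚ) (R2 (ZMod 2)) := by
  refine ⟨Rep.of (rho2 (ZLoc 2)), fun x : ZLoc 2 × ZLoc 2 => ((x.1 : ℚ), (x.2 : ℚ)),
    fun x : ZLoc 2 × ZLoc 2 => (res 2 x.1, res 2 x.2),
    inferInstanceAs (Module.Finite (ZLoc 2) (ZLoc 2 × ZLoc 2)), ⟨fun _ _ => rfl, ?_⟩,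
    fun _ _ => rfl, fun g x => rho2_map ((ZLoc 2).subtype) g x, ?_,
    ⟨fun x y => Prod.ext (map_add (res 2) _ _) (map_add (res 2) _ _), ?_, ?_⟩,
    fun g x => rho2_map (res 2) g x⟩
  · intro u v h
    exact Prod.ext (Subtype.val_injective (congrArg Prod.fst h))
      (Subtype.val_injective (congrArg Prod.snd h))
  · unfold Spans
    rw [eq_top_iff]
    rintro ⟨x, y⟩ _
    have h1 : ((1, 0) : ℚ × ℚ) ∈ Set.range (fun x : ZLoc 2 × ZLoc 2 => ((x.1 : ℚ), (x.2 : ℚ))) :=
      ⟨(1, 0), rfl⟩
    have h2 : ((0, 1) : ℚ × ℚ) ∈ Set.range (fun x : ZLoc 2 × ZLoc 2 => ((x.1 : ℚ), (x.2 : ℚ))) :=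
      ⟨(0, 1), rfl⟩
    have : ((x, y) : ℚ × ℚ) = x • ((1, 0) : ℚ × ℚ) + y • ((0, 1) : ℚ × ℚ) := by simp
    rw [this]
    exact Submodule.add_mem _ (Submodule.smul_mem _ _ (Submodule.subset_span h1))
      (Submodule.smul_mem _ _ (Submodule.subset_span h2))
  · rintro ⟨x, y⟩
    obtain ⟨a, ha⟩ := res_surjective 2 x
    obtain ⟨b, hb⟩ := res_surjective 2 y
    exact ⟨(a, b), Prod.ext ha hb⟩
  · rintro ⟨a, b⟩
    constructor
    · intro h
      have h1 : res 2 a = 0 := congrArg Prod.fst h
      have h2 : res 2 b = 0 := congrArg Prod.snd h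
      obtain ⟨c, hc⟩ := (res_eq_zero 2 a).1 h1
      obtain ⟨d, hd⟩ := (res_eq_zero 2 b).1 h2
      refine ⟨(c, d), ?_⟩
      rw [hc, hd]
      ext <;> simp
    · rintro ⟨⟨c, d⟩, h⟩
      rw [h]
      apply Prod.ext
      · exact (res_eq_zero 2 _).2 ⟨c, by simp⟩
      · exact (res_eq_zero 2 _).2 ⟨d, by simp⟩

theorem char2' {V : Type*} [AddCommGroup V] [Module (ZMod 2) V] (v : V) : v + v = 0 := by
  have h : (2 : ZMod 2) • v = v + v := two_smul (ZMod 2) v
  rw [← h]
  have : (2 : ZMod 2) = 0 := by decide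
  rw [this, zero_smul]

/-- every nonzero representation contains one of the two simple ones -/
theorem exists_sub (M : Rep.{0} (ZMod 2) Dic) (v0 : M.V) (hv0 : v0 ≠ 0) :
    (∃ f : R1 (ZMod 2) ⟶ M, Function.Injective f.hom) ∨
    (∃ f : R2 (ZMod 2) ⟶ M, Function.Injective f.hom) := by
  have c2 : ∀ v : M.V, v + v = 0 := char2'
  let P : M.V →ₗ[ZMod 2] M.V := M.ρ (QuaternionGroup.a 1)
  let X : M.V →ₗ[ZMod 2] M.V := M.ρ (QuaternionGroup.xa 0)
  have hXX : ∀ v, X (X v) = P (P (P v)) := by
    intro v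
    have : (QuaternionGroup.xa 0 * QuaternionGroup.xa 0 : Dic) =
      QuaternionGroup.a 1 * (QuaternionGroup.a 1 * QuaternionGroup.a 1) := by decide
    change (M.ρ _ * M.ρ _) v = (M.ρ _ * (M.ρ _ * M.ρ _)) v
    rw [← map_mul, ← map_mul, ← map_mul, this]
  have hP6 : ∀ v, P (P (P (P (P (P v))))) = v := by
    intro v
    have : (QuaternionGroup.a 1 * (QuaternionGroup.a 1 * (QuaternionGroup.a 1 *
      (QuaternionGroup.a 1 * (QuaternionGroup.a 1 * QuaternionGroup.a 1)))) : Dic) = 1 := by decide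
    change (M.ρ _ * (M.ρ _ * (M.ρ _ * (M.ρ _ * (M.ρ _ * M.ρ _))))) v = v
    rw [← map_mul, ← map_mul, ← map_mul, ← map_mul, ← map_mul, this, map_one]; rfl
  have hPX : ∀ v, P (X v) = X (P (P (P (P (P v))))) := by
    intro v
    have : (QuaternionGroup.a 1 * QuaternionGroup.xa 0 : Dic) =
      QuaternionGroup.xa 0 * (QuaternionGroup.a 1 * (QuaternionGroup.a 1 * (QuaternionGroup.a 1 *
      (QuaternionGroup.a 1 * QuaternionGroup.a 1)))) := by decide
    change (M.ρ _ * M.ρ _) v = (M.ρ _ * (M.ρ _ * (M.ρ _ * (M.ρ _ * (M.ρ _ * M.ρ _))))) v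
    rw [← map_mul, ← map_mul, ← map_mul, ← map_mul, ← map_mul, ← map_mul, this]
  -- a nonzero vector fixed by the central involution
  obtain ⟨v, hv, hZ⟩ : ∃ v : M.V, v ≠ 0 ∧ P (P (P v)) = v := by
    by_cases h : P (P (P v0)) + v0 = 0
    · refine ⟨v0, hv0, ?_⟩
      calc P (P (P v0)) = P (P (P v0)) + (v0 + v0) := by rw [c2, add_zero]
        _ = v0 := by rw [← add_assoc, h, zero_add]
    · refine ⟨_, h, ?_⟩
      rw [map_add, map_add, map_add, hP6, add_comm]
  -- maps from the trivial module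
  have triv : ∀ w : M.V, w ≠ 0 → P w = w → X w = w →
      ∃ f : R1 (ZMod 2) ⟶ M, Function.Injective f.hom := by
    intro w hw hP hX
    let f : R1 (ZMod 2) ⟶ M := mkHomD (R1 (ZMod 2)) M (LinearMap.toSpanSingleton (ZMod 2) M.V w)
      (by
        intro c
        change c • w = P (c • w)
        rw [map_smul, hP])
      (by
        intro c
        change c • w = X (c • w)
        rw [map_smul, hX])
    refine ⟨f, ?_⟩
    rw [injective_iff_map_eq_zero]
    intro c hc
    have : c • w = 0 := hc
    exact (smul_eq_zero.1 this).resolve_right hw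
  by_cases ht : v + P v + P (P v) = 0
  · -- second case
    obtain ⟨u, hu, hXu, hPu, hZu⟩ : ∃ u : M.V, u ≠ 0 ∧ X u = u ∧ u + P u + P (P u) = 0 ∧
        P (P (P u)) = u := by
      have hXXv : X (X v) = v := by rw [hXX, hZ]
      have e1 : P (X v) = X (P (P v)) := by rw [hPX, hZ]
      have e2 : P (P (X v)) = X (P v) := by
        rw [e1, hPX, hZ, hZ]
      by_cases h : v + X v = 0
      · refine ⟨v, hv, ?_, ht, hZ⟩
        calc X v = X v + (v + v) := by rw [c2, add_zero]
          _ = (v + X v) + v := by abel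
          _ = v := by rw [h, zero_add]
      · refine ⟨v + X v, h, ?_, ?_, ?_⟩
        · rw [map_add, hXXv, add_comm]
        · rw [map_add, map_add, e2, e1]
          calc v + X v + (P v + X (P (P v))) + (P (P v) + X (P v))
              = (v + P v + P (P v)) + (X v + X (P v) + X (P (P v))) := by abel
            _ = 0 := by rw [← map_add, ← map_add, ht, map_zero, add_zero]
        · rw [map_add, map_add, map_add, hZ, e2]
          rw [hPX, hZ, hZ]
    right
    have hPPu : P (P u) = P u + u := by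
      calc P (P u) = (u + P u + P (P u)) + (u + P u) := by
            have := c2 (u + P u)
            calc P (P u) = P (P u) + ((u + P u) + (u + P u)) := by rw [this, add_zero]
              _ = _ := by abel
        _ = P u + u := by rw [hPu, zero_add, add_comm]
    have h5 : P (X (P u)) = u := by rw [hPX, hP6, hXu]
    have hXPu : X (P u) = P u + u := by
      rw [← hP6 (X (P u)), h5, hZu, hPPu]
    have hPw : P (P u + u) = u := by
      rw [map_add, hPPu]
      calc P u + u + P u = (P u + P u) + u := by abel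
        _ = u := by rw [c2, zero_add]
    have hXw : X (P u + u) = P u := by
      rw [map_add, hXPu, hXu, add_assoc, c2, add_zero]
    let f : R2 (ZMod 2) ⟶ M := mkHomD (R2 (ZMod 2)) M
      (LinearMap.coprod (LinearMap.toSpanSingleton (ZMod 2) M.V u)
        (LinearMap.toSpanSingleton (ZMod 2) M.V (P u + u)))
      (by
        rintro ⟨s, t⟩
        have h6 : (R2 (ZMod 2)).ρ (QuaternionGroup.a 1) (s, t) = (-s + t, -s) :=
          rho2_a (ZMod 2) (s, t)
        rw [h6]
        change (-s + t) • u + (-s) • (P u + u) = P (s • u + t • (P u + u))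
        rw [map_add, map_smul, map_smul, hPw, CharTwo.neg_eq]
        have h7 := c2 (s • u)
        calc (s + t) • u + s • (P u + u) = (s • u + s • u) + (s • P u + t • u) := by module
          _ = s • P u + t • u := by rw [h7, zero_add])
      (by
        rintro ⟨s, t⟩
        have h6 : (R2 (ZMod 2)).ρ (QuaternionGroup.xa 0) (s, t) = (s - t, -t) :=
          rho2_x (ZMod 2) (s, t)
        rw [h6]
        change (s - t) • u + (-t) • (P u + u) = X (s • u + t • (P u + u))
        rw [map_add, map_smul, map_smul, hXw, hXu, CharTwo.neg_eq, CharTwo.sub_eq_add]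
        have h7 := c2 (t • u)
        calc (s + t) • u + t • (P u + u) = (t • u + t • u) + (s • u + t • P u) := by module
          _ = s • u + t • P u := by rw [h7, zero_add])
    refine ⟨f, ?_⟩
    rw [injective_iff_map_eq_zero]
    rintro ⟨s, t⟩ h
    have h' : s • u + t • (P u + u) = 0 := h
    have hF2 : ∀ c : ZMod 2, c = 0 ∨ c = 1 := by decide
    have hs : s = 0 ∨ s = 1 := hF2 s
    have ht : t = 0 ∨ t = 1 := hF2 t
    rcases hs with rfl | rfl
    · rcases ht with rfl | rfl
      · rfl
      · exfalso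
        rw [zero_smul, zero_add, one_smul] at h'
        rw [h', map_zero] at hPw
        exact hu hPw.symm
    · rcases ht with rfl | rfl
      · exfalso
        rw [zero_smul, add_zero, one_smul] at h'
        exact hu h'
      · exfalso
        rw [one_smul, one_smul] at h'
        have h8 : P u = 0 := by
          calc P u = (u + (P u + u)) + (u + u) := by
                have := c2 u
                rw [this, add_zero]
                calc P u = P u + (u + u) := by rw [this, add_zero]
                  _ = _ := by abel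
            _ = 0 := by rw [h', c2, add_zero]
        rw [h8, map_zero, map_zero] at hZu
        exact hu hZu.symm
  · left
    have h1 : P (v + P v + P (P v)) = v + P v + P (P v) := by
      rw [map_add, map_add, hZ]; abel
    by_cases h2 : (v + P v + P (P v)) + X (v + P v + P (P v)) = 0
    · apply triv _ ht h1
      set t := v + P v + P (P v)
      calc X t = X t + (t + t) := by rw [c2, add_zero]
        _ = (t + X t) + t := by abel
        _ = t := by rw [h2, zero_add]
    · apply triv _ h2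
      · rw [map_add, h1]
        congr 1
        rw [hPX, h1, h1, h1, h1, h1]
      · rw [map_add, hXX, h1, h1, h1, add_comm]

/-! ### the Grothendieck group -/

theorem shortExact_of {p : ℕ} [Fact p.Prime] {G : Type} [Group G] {A B C : Rep.{0} (ZMod p) G}
    (f : A ⟶ B) (g : B ⟶ C) (h1 : Function.Injective f.hom)
    (h2 : Function.Exact f.hom g.hom) (h3 : Function.Surjective g.hom) :
    ∃ w : f ≫ g = 0, (ShortComplex.mk f g w).ShortExact := by
  have w : f ≫ g = 0 := by
    apply Rep.hom_ext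
    apply Representation.IntertwiningMap.ext
    apply LinearMap.ext
    intro v
    exact h2.apply_apply_eq_zero v
  have hm : Mono f := (Rep.mono_iff_injective f).2 h1
  have he : Epi g := (Rep.epi_iff_surjective g).2 h3
  refine ⟨w, ?_⟩
  refine ShortComplex.ShortExact.mk ?_
  rw [← ShortComplex.exact_map_iff_of_faithful _ (forget₂ (Rep.{0} (ZMod p) G) (ModuleCat.{0} (ZMod p)))]
  rw [ShortComplex.ShortExact.moduleCat_exact_iff_function_exact]
  exact h2

theorem cls_ses {p : ℕ} [Fact p.Prime] {G : Type} [Group G] {A B C : FinRep p G}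
    (f : A.1 ⟶ B.1) (g : B.1 ⟶ C.1) (h1 : Function.Injective f.hom)
    (h2 : Function.Exact f.hom g.hom) (h3 : Function.Surjective g.hom) :
    G0.cls B = G0.cls A + G0.cls C := by
  obtain ⟨w, hS⟩ := shortExact_of f g h1 h2 h3
  have h1 : FreeAbelianGroup.of B - FreeAbelianGroup.of A - FreeAbelianGroup.of C ∈
      AddSubgroup.closure (G0Relations p G) :=
    AddSubgroup.subset_closure ⟨_, A, B, C, hS, rfl, rfl, rfl, rfl⟩
  have h2 : (QuotientAddGroup.mk (FreeAbelianGroup.of B - FreeAbelianGroup.of A -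
      FreeAbelianGroup.of C) : G0 p G) = 0 := (QuotientAddGroup.eq_zero_iff _).2 h1
  have h3 : G0.cls B - G0.cls A - G0.cls C = 0 := h2
  rw [sub_sub, sub_eq_zero] at h3
  exact h3

theorem cls_zero {p : ℕ} [Fact p.Prime] {G : Type} [Group G] (A : FinRep p G)
    (h : ∀ v : A.1.V, v = 0) : G0.cls A = 0 := by
  have h1 := cls_ses (A := A) (B := A) (C := A) (𝟙 A.1) (𝟙 A.1)
    (fun x y _ => (h x).trans (h y).symm) (fun y => ⟨fun _ => ⟨0, (h _).trans (h _).symm⟩,
      fun _ => h _⟩) (fun y => ⟨0, (h _).trans (h _).symm⟩)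
  exact (left_eq_add.1 h1)

theorem cls_dec (n : ℕ) : ∀ (M : FinRep 2 Dic), Module.finrank (ZMod 2) M.1.V ≤ n →
    ∃ a b : ℕ, G0.cls M = a • G0.cls (⟨R1 (ZMod 2), inferInstanceAs (FiniteDimensional (ZMod 2) (ZMod 2))⟩ :
      FinRep 2 Dic) + b • G0.cls (⟨R2 (ZMod 2), inferInstanceAs (FiniteDimensional (ZMod 2) (ZMod 2 × ZMod 2))⟩ :
      FinRep 2 Dic) := by
  induction n with
  | zero =>
    intro M hM
    have hfd := M.2
    have h0 : Module.finrank (ZMod 2) M.1.V = 0 := by omega
    have h1 : Subsingleton M.1.V := Module.finrank_zero_iff.1 h0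
    refine ⟨0, 0, ?_⟩
    rw [cls_zero M (fun v => Subsingleton.elim _ _)]
    simp
  | succ n ih =>
    intro M hM
    have hfd := M.2
    by_cases hz : ∀ v : M.1.V, v = 0
    · refine ⟨0, 0, ?_⟩
      rw [cls_zero M hz]
      simp
    · push Not at hz
      obtain ⟨v0, hv0⟩ := hz
      -- the quotient
      have key : ∀ (S : FinRep 2 Dic) (f : S.1 ⟶ M.1), Function.Injective f.hom →
          0 < Module.finrank (ZMod 2) S.1.V →
          ∃ C : FinRep 2 Dic, Module.finrank (ZMod 2) C.1.V ≤ n ∧
            G0.cls M = G0.cls S + G0.cls C := by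
        intro S f hf hpos
        let R : Submodule (ZMod 2) M.1.V := LinearMap.range f.hom.toLinearMap
        have hR : ∀ g, R ≤ R.comap (M.1.ρ g) := by
          rintro g _ ⟨s, rfl⟩
          exact ⟨S.1.ρ g s, Rep.hom_comm_apply f g s⟩
        let C0 : Rep.{0} (ZMod 2) Dic := Rep.quotient M.1 R hR
        let C : FinRep 2 Dic := ⟨C0, inferInstanceAs (FiniteDimensional (ZMod 2) (M.1.V ⧸ R))⟩
        refine ⟨C, ?_, ?_⟩
        · have h1 : Module.finrank (ZMod 2) (M.1.V ⧸ R) + Module.finrank (ZMod 2) R =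
              Module.finrank (ZMod 2) M.1.V := Submodule.finrank_quotient_add_finrank R
          have h2 : Module.finrank (ZMod 2) R = Module.finrank (ZMod 2) S.1.V :=
            LinearMap.finrank_range_of_inj (f := f.hom.toLinearMap) hf
          change Module.finrank (ZMod 2) (M.1.V ⧸ R) ≤ n
          omega
        · refine cls_ses (C := C) f (Rep.mkQ M.1 R hR) hf ?_ ?_
          · intro y
            change R.mkQ y = 0 ↔ _
            rw [Submodule.mkQ_apply, Submodule.Quotient.mk_eq_zero]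
            rfl
          · exact Submodule.mkQ_surjective R
      rcases exists_sub M.1 v0 hv0 with ⟨f, hf⟩ | ⟨f, hf⟩
      · obtain ⟨C, hC, hcls⟩ := key ⟨R1 (ZMod 2), inferInstanceAs (FiniteDimensional (ZMod 2) (ZMod 2))⟩ f hf
          (by
            change 0 < Module.finrank (ZMod 2) (ZMod 2)
            simp)
        obtain ⟨a, b, hab⟩ := ih C hC
        refine ⟨a + 1, b, ?_⟩
        rw [hcls, hab, add_smul, one_smul]
        abel
      · obtain ⟨C, hC, hcls⟩ := key ⟨R2 (ZMod 2), inferInstanceAs (FiniteDimensional (ZMod 2) (ZMod 2 × ZMod 2))⟩ f hf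
          (by
            change 0 < Module.finrank (ZMod 2) (ZMod 2 × ZMod 2)
            simp)
        obtain ⟨a, b, hab⟩ := ih C hC
        refine ⟨a, b + 1, ?_⟩
        rw [hcls, hab, add_smul, one_smul]
        abel

theorem condN : ConditionN 2 Dic := by
  intro P _ _
  obtain ⟨a, b, h⟩ := cls_dec _ P le_rfl
  refine ⟨2, ![R1 ℚ, R2 ℚ],
    ![⟨R1 (ZMod 2), inferInstanceAs (FiniteDimensional (ZMod 2) (ZMod 2))⟩,
      ⟨R2 (ZMod 2), inferInstanceAs (FiniteDimensional (ZMod 2) (ZMod 2 × ZMod 2))⟩],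
    ![a, b], ?_, ?_, ?_⟩
  · intro i
    fin_cases i
    · exact R1_irred
    · exact R2_irred
  · intro i
    fin_cases i
    · exact red1
    · exact red2
  · rw [h]
    simp [Fin.sum_univ_two]

end Q2.SP
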