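import Pool.Agent.Q2.SP.Ring

set_option autoImplicit false

open CategoryTheory

namespace Q2.SP

/-- A ring is semiperfect if `R / J(R)` is semisimple (Artinian) and idempotents lift modulo the
Jacobson radical. -/
def IsSemiperfect (R : Type) [Ring R] : Prop :=
  IsSemisimpleRing (R ⧸ Ring.jacobson R) ∧
    ∀ e : R ⧸ Ring.jacobson R, IsIdempotentElem e →
      ∃ f : R, IsIdempotentElem f ∧ Ideal.Quotient.mk (Ring.jacobson R) f = e

section generic
variable {G : Type} [Group G] {A B : Type} [CommRing A] [CommRing B]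

/-- The action of `g ∈ G` on a representation `M`. -/
def act (M : Rep.{0} A G) (g : G) (x : M.V) : M.V := M.ρ g x

/-- The map `f : M → N` between representations of `G` over `A` and `B` commutes with the
actions of `G`. -/
def Equivariant (M : Rep.{0} A G) (N : Rep.{0} B G) (f : M.V → N.V) : Prop :=
  ∀ (g : G) (x : M.V), f (act M g x) = act N g (f x)

/-- The map `f : M → N` is semilinear with respect to `φ : A → B`. -/
def Semilin (M : Rep.{0} A G) (N : Rep.{0} B G) (φ : A →+* B) (f : M.V → N.V) : Prop :=
  ∀ (a : A) (x : M.V), f (a • x) = φ a • f x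

/-- The `B`-span of the range of `f` is everything. -/
def Spans (M : Rep.{0} A G) (N : Rep.{0} B G) (f : M.V → N.V) : Prop :=
  Submodule.span B (Set.range f) = ⊤

/-- `f : M → N` is additive, surjective and has kernel `p M`. -/
def IsModP (p : ℕ) (M : Rep.{0} A G) (N : Rep.{0} B G) (f : M.V → N.V) : Prop :=
  (∀ x y : M.V, f (x + y) = f x + f y) ∧ Function.Surjective f ∧
    ∀ x : M.V, f x = 0 ↔ ∃ y : M.V, x = p • y

/-- `f : M → N` is additive and injective. -/
def IsAddEmb (M : Rep.{0} A G) (N : Rep.{0} B G) (f : M.V → N.V) : Prop :=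
  (∀ x y : M.V, f (x + y) = f x + f y) ∧ Function.Injective f

end generic

section
variable (p : ℕ) [Fact p.Prime] (G : Type) [Group G]

variable {G} in
/-- `M` is (isomorphic to) a reduction `L / pL` of the rational representation `V`: here `L` is a
`ℤ_(p) G`-module, finitely generated over `ℤ_(p)`, with a `ℤ_(p) G`-linear embedding `ι` into `V`
whose image spans `V` over `ℚ`, and the isomorphism `L / pL ≅ M` is given by a surjective
`G`-equivariant additive map `π : L → M` with kernel `pL`. -/
def IsReduction (V : Rep.{0} ℚ G) (M : Rep.{0} (ZMod p) G) : Prop :=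
  ∃ (L : Rep.{0} (ZLoc p) G) (ι : L.V → V.V) (π : L.V → M.V),
    Module.Finite (ZLoc p) L.V ∧
    IsAddEmb L V ι ∧ Semilin L V (ZLoc p).subtype ι ∧ Equivariant L V ι ∧ Spans L V ι ∧
    IsModP p L M π ∧ Equivariant L M π

/-- Finitely generated `𝔽_p G`-modules, as finite-dimensional representations of `G` over `ZMod p`. -/
abbrev FinRep : Type 1 := {M : Rep.{0} (ZMod p) G // FiniteDimensional (ZMod p) M.V}

/-- The relations `[B] - [A] - [C]` of the Grothendieck group, one for each short exact sequence
`0 → A → B → C → 0`. -/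
def G0Relations : Set (FreeAbelianGroup (FinRep p G)) :=
  {x | ∃ (S : ShortComplex (Rep.{0} (ZMod p) G)) (A B C : FinRep p G), S.ShortExact ∧
    S.X₁ = A.1 ∧ S.X₂ = B.1 ∧ S.X₃ = C.1 ∧
    x = FreeAbelianGroup.of B - FreeAbelianGroup.of A - FreeAbelianGroup.of C}

/-- The Grothendieck group `G_0(𝔽_p G)`. -/
def G0 : Type 1 := FreeAbelianGroup (FinRep p G) ⧸ AddSubgroup.closure (G0Relations p G)

instance : AddCommGroup (G0 p G) :=
  inferInstanceAs (AddCommGroup (FreeAbelianGroup (FinRep p G) ⧸
    AddSubgroup.closure (G0Relations p G)))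

variable {p G} in
/-- The class of a module in `G_0(𝔽_p G)`. -/
def G0.cls (M : FinRep p G) : G0 p G :=
  QuotientAddGroup.mk (FreeAbelianGroup.of M)

/-- Condition (N): the class in `G_0(𝔽_p G)` of every projective indecomposable `𝔽_p G`-module is a
sum, with non-negative integer multiplicities `a i`, of classes of reductions of simple
`ℚ G`-modules. -/
def ConditionN : Prop :=
  ∀ P : FinRep p G, Projective P.1 → Indecomposable P.1 →
    ∃ (n : ℕ) (V : Fin n → Rep.{0} ℚ G) (W : Fin n → FinRep p G) (a : Fin n → ℕ),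
      (∀ i, (V i).ρ.IsIrreducible) ∧ (∀ i, IsReduction p (V i) (W i).1) ∧
      G0.cls P = ∑ i, a i • G0.cls (W i)

end

end Q2.SP
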