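import Pool.Agent.Q2.SP.Group

set_option autoImplicit false

open Quaternion

namespace Q2.SP

/-- the support of the idempotent -/
def supp : Finset Dic :=
  {QuaternionGroup.a 0, QuaternionGroup.a 4, QuaternionGroup.xa 4, QuaternionGroup.xa 2,
    QuaternionGroup.xa 3, QuaternionGroup.xa 5}

/-- multiplicity of g in the square -/
def cnt (g : Dic) : ℕ := ((supp ×ˢ supp).filter (fun st => st.1 * st.2 = g)).card

/-- halves -/
def half (g : Dic) : ℕ := (cnt g - if g ∈ supp then 1 else 0) / 2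

set_option maxRecDepth 100000 in
theorem cnt_eq : ∀ g : Dic, cnt g = (if g ∈ supp then 1 else 0) + 2 * half g := by
  decide +kernel

section
variable (A : Type) [CommRing A]

/-- the element lifting a primitive idempotent -/
noncomputable def el : MonoidAlgebra A Dic := ∑ g ∈ supp, MonoidAlgebra.single g 1

theorem el_mul_el : el A * el A = el A + 2 * ∑ g : Dic, (half g : ℕ) • MonoidAlgebra.single g (1 : A) := by
  have h1 : el A * el A = ∑ st ∈ supp ×ˢ supp, MonoidAlgebra.single (st.1 * st.2) (1 : A) := by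
    rw [el, Finset.sum_mul_sum, Finset.sum_product]
    simp [MonoidAlgebra.single_mul_single]
  have h2 : ∑ st ∈ supp ×ˢ supp, MonoidAlgebra.single (st.1 * st.2) (1 : A) =
      ∑ g : Dic, cnt g • MonoidAlgebra.single g (1 : A) := by
    rw [← Finset.sum_fiberwise (supp ×ˢ supp) (fun st => st.1 * st.2)]
    apply Finset.sum_congr rfl
    intro g _
    have h4 : ∀ st ∈ (supp ×ˢ supp).filter (fun st => st.1 * st.2 = g),
        MonoidAlgebra.single (st.1 * st.2) (1 : A) = MonoidAlgebra.single g (1 : A) := by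
      intro st hst
      rw [(Finset.mem_filter.1 hst).2]
    rw [Finset.sum_congr rfl h4, Finset.sum_const]
    rfl
  have h3 : el A = ∑ g : Dic, (if g ∈ supp then 1 else 0 : ℕ) • MonoidAlgebra.single g (1 : A) := by
    rw [el]
    simp [Finset.sum_ite_mem, ite_smul]
  rw [h1, h2]
  conv_rhs => rw [h3]
  rw [Finset.mul_sum, ← Finset.sum_add_distrib]
  apply Finset.sum_congr rfl
  intro g _
  rw [cnt_eq g, add_smul, mul_smul]
  congr 1
  rw [two_mul, two_smul]

end

/-- componentwise reduction -/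
def qres : Qt (ZLoc 2) →+* Qt (ZMod 2) where
  toFun q := ⟨res 2 q.re, res 2 q.imI, res 2 q.imJ, res 2 q.imK⟩
  map_one' := by ext <;> simp
  map_zero' := by ext <;> simp
  map_add' a b := by ext <;> simp
  map_mul' a b := by ext <;> simp [CharTwo.sub_eq_add]

theorem qres_qHom (g : Dic) : qres (qHom (ZLoc 2) g) = qHom (ZMod 2) g := by
  have hu : qres (qu (ZLoc 2)) = qu (ZMod 2) := by ext <;> simp [qres, qu]
  have hv : qres (qv (ZLoc 2)) = qv (ZMod 2) := by ext <;> simp [qres, qv]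
  cases g with
  | a i =>
    change qres (qu (ZLoc 2) ^ _) = qu (ZMod 2) ^ _
    rw [map_pow, hu]
  | xa i =>
    change qres (qv (ZLoc 2) * qu (ZLoc 2) ^ _) = qv (ZMod 2) * qu (ZMod 2) ^ _
    rw [map_mul, map_pow, hu, hv]

theorem phi_el : qres (psi (ZLoc 2) (el (ZLoc 2))) = ⟨1, 1, 0, 1⟩ := by
  have h1 : qres (psi (ZLoc 2) (el (ZLoc 2))) = ∑ g ∈ supp, qHom (ZMod 2) g := by
    rw [el, map_sum, map_sum]
    apply Finset.sum_congr rfl
    intro g _
    rw [← qres_qHom]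
    congr 1
    change MonoidAlgebra.lift (ZLoc 2) (Qt (ZLoc 2)) Dic (qHom (ZLoc 2)) _ = _
    rw [MonoidAlgebra.lift_single, one_smul]
  rw [h1]
  apply QuaternionAlgebra.ext
  · decide +kernel
  · decide +kernel
  · decide +kernel
  · decide +kernel

theorem not_lift (h : ∀ e : MonoidAlgebra (ZLoc 2) Dic ⧸ Ring.jacobson (MonoidAlgebra (ZLoc 2) Dic),
    IsIdempotentElem e → ∃ f : MonoidAlgebra (ZLoc 2) Dic, IsIdempotentElem f ∧
      Ideal.Quotient.mk (Ring.jacobson (MonoidAlgebra (ZLoc 2) Dic)) f = e) : False := by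
  have h2 : (2 : MonoidAlgebra (ZLoc 2) Dic) ∈ Ring.jacobson (MonoidAlgebra (ZLoc 2) Dic) := by
    have := p_mem_jacobson 2 (MonoidAlgebra (ZLoc 2) Dic)
    simpa using this
  obtain ⟨f, hf, hfe⟩ := h (Ideal.Quotient.mk _ (el (ZLoc 2))) (by
    rw [IsIdempotentElem, ← map_mul, el_mul_el, map_add, map_mul,
      Ideal.Quotient.eq_zero_iff_mem.2 h2, zero_mul, add_zero])
  have hy : el (ZLoc 2) - f ∈ Ring.jacobson (MonoidAlgebra (ZLoc 2) Dic) := by
    rw [← Ideal.Quotient.eq_zero_iff_mem, map_sub, hfe, sub_self]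
  obtain ⟨r, hr⟩ := left_inv_of_jacobson _ hy
  let φ : MonoidAlgebra (ZLoc 2) Dic →+* Qt (ZMod 2) := qres.comp (psi (ZLoc 2))
  have hφf : φ f = 0 ∨ φ f = 1 := by
    have h5 : psi (ZLoc 2) f * psi (ZLoc 2) f = psi (ZLoc 2) f := by
      rw [← map_mul, hf.eq]
    rcases idem_quat _ h5 with h6 | h6
    · left; change qres (psi (ZLoc 2) f) = 0; rw [h6, map_zero]
    · right; change qres (psi (ZLoc 2) f) = 1; rw [h6, map_one]
  have hφe : φ (el (ZLoc 2)) = ⟨1, 1, 0, 1⟩ := phi_el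
  have hr' : φ r * (1 - (φ (el (ZLoc 2)) - φ f)) = 1 := by
    rw [← map_sub, ← map_one φ, ← map_sub, ← map_mul, hr]
  -- multiply by a zero divisor
  rcases hφf with h7 | h7
  · have h8 : (1 - (φ (el (ZLoc 2)) - φ f)) * (⟨1, 1, 0, 1⟩ : Qt (ZMod 2)) = 0 := by
      rw [hφe, h7]
      apply QuaternionAlgebra.ext <;> decide +kernel
    have h9 : (⟨1, 1, 0, 1⟩ : Qt (ZMod 2)) = 0 := by
      calc (⟨1, 1, 0, 1⟩ : Qt (ZMod 2)) = (φ r * (1 - (φ (el (ZLoc 2)) - φ f))) * ⟨1, 1, 0, 1⟩ := by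
            rw [hr', one_mul]
        _ = 0 := by rw [mul_assoc, h8, mul_zero]
    have := congrArg QuaternionAlgebra.re h9
    simp at this
  · have h8 : (1 - (φ (el (ZLoc 2)) - φ f)) * (⟨0, 1, 0, 1⟩ : Qt (ZMod 2)) = 0 := by
      rw [hφe, h7]
      apply QuaternionAlgebra.ext <;> decide +kernel
    have h9 : (⟨0, 1, 0, 1⟩ : Qt (ZMod 2)) = 0 := by
      calc (⟨0, 1, 0, 1⟩ : Qt (ZMod 2)) = (φ r * (1 - (φ (el (ZLoc 2)) - φ f))) * ⟨0, 1, 0, 1⟩ := by
            rw [hr', one_mul]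
        _ = 0 := by rw [mul_assoc, h8, mul_zero]
    have := congrArg QuaternionAlgebra.imI h9
    simp at this

end Q2.SP
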