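import Mathlib

set_option autoImplicit false

open Quaternion

namespace Q2.SP

/-- `ℤ_(p)`: the rational numbers whose denominator is prime to `p`. -/
def ZLoc (p : ℕ) [hp : Fact p.Prime] : Subring ℚ where
  carrier := {q | ¬ p ∣ q.den}
  mul_mem' := by
    intro a b ha hb h
    have h1 : p ∣ a.den * b.den := h.trans (Rat.mul_den_dvd a b)
    rcases hp.out.dvd_mul.1 h1 with h2 | h2
    · exact ha h2
    · exact hb h2
  one_mem' := by
    intro h
    exact hp.out.one_lt.ne' (Nat.dvd_one.1 h)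
  add_mem' := by
    intro a b ha hb h
    have h1 : p ∣ a.den * b.den := h.trans (Rat.add_den_dvd a b)
    rcases hp.out.dvd_mul.1 h1 with h2 | h2
    · exact ha h2
    · exact hb h2
  zero_mem' := by
    intro h
    exact hp.out.one_lt.ne' (Nat.dvd_one.1 h)
  neg_mem' := by
    intro a ha h
    exact ha (by simpa using h)

theorem mem_ZLoc {p : ℕ} [hp : Fact p.Prime] (q : ℚ) : q ∈ ZLoc p ↔ ¬ p ∣ q.den := Iff.rfl

theorem den_ne {p : ℕ} [hp : Fact p.Prime] (q : ZLoc p) : ((q : ℚ).den : ZMod p) ≠ 0 := by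
  intro h
  exact q.2 ((ZMod.natCast_eq_zero_iff _ _).1 h)

/-- reduction modulo p -/
def res (p : ℕ) [hp : Fact p.Prime] : ZLoc p →+* ZMod p where
  toFun q := ((q : ℚ) : ZMod p)
  map_one' := by simp
  map_zero' := by simp
  map_add' a b := by
    have := Rat.cast_add_of_ne_zero (den_ne a) (den_ne b)
    simpa using this
  map_mul' a b := by
    have := Rat.cast_mul_of_ne_zero (den_ne a) (den_ne b)
    simpa using this

theorem res_surjective (p : ℕ) [hp : Fact p.Prime] : Function.Surjective (res p) := by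
  intro x
  obtain ⟨n, rfl⟩ := ZMod.natCast_zmod_surjective x
  exact ⟨(n : ZLoc p), map_natCast _ _⟩

theorem res_eq_zero (p : ℕ) [hp : Fact p.Prime] (q : ZLoc p) :
    res p q = 0 ↔ ∃ r : ZLoc p, q = (p : ZLoc p) * r := by
  constructor
  · intro h
    have h0 : ((q : ℚ) : ZMod p) = 0 := h
    rw [Rat.cast_def, div_eq_zero_iff] at h0
    have h1 : (((q : ℚ).num : ℤ) : ZMod p) = 0 := h0.resolve_right (den_ne q)
    rw [ZMod.intCast_zmod_eq_zero_iff_dvd] at h1
    obtain ⟨m, hm⟩ := h1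
    have hd : (q : ℚ) = (p : ℚ) * ((m : ℚ) / ((q : ℚ).den : ℚ)) := by
      conv_lhs => rw [← Rat.num_div_den (q : ℚ), hm]
      push_cast; ring
    have hmem : ((m : ℚ) / ((q : ℚ).den : ℚ)) ∈ ZLoc p := by
      intro h2
      have h3 : ((m : ℚ) / ((q : ℚ).den : ℚ)).den ∣ (q : ℚ).den := by
        have := Rat.den_dvd m ((q : ℚ).den : ℤ)
        rw [Rat.divInt_eq_div] at this
        exact_mod_cast this
      exact q.2 (h2.trans h3)
    exact ⟨⟨_, hmem⟩, Subtype.ext (by push_cast; exact hd)⟩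
  · rintro ⟨r, rfl⟩
    rw [map_mul, map_natCast]
    simp

/-- elements congruent to one are units -/
theorem isUnit_of_res (p : ℕ) [hp : Fact p.Prime] (q : ZLoc p) (h : res p q ≠ 0) : IsUnit q := by
  have h1 : (((q : ℚ).num : ℤ) : ZMod p) ≠ 0 := by
    intro h2
    apply h
    change ((q : ℚ) : ZMod p) = 0
    rw [Rat.cast_def, h2, zero_div]
  have hq : (q : ℚ) ≠ 0 := by
    intro h2
    rw [h2] at h1
    simp at h1
  have hinv : (q : ℚ)⁻¹ ∈ ZLoc p := by
    intro h2
    apply h1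
    rw [Rat.inv_def, ] at h2
    have h3 : ((Rat.divInt ((q : ℚ).den : ℤ) (q : ℚ).num)).den ∣ (q : ℚ).num.natAbs := by
      have := Rat.den_dvd ((q : ℚ).den : ℤ) (q : ℚ).num
      exact Int.natCast_dvd.1 this
    have h4 := h2.trans h3
    rw [ZMod.intCast_zmod_eq_zero_iff_dvd]
    exact Int.natCast_dvd.2 h4
  exact ⟨⟨q, ⟨_, hinv⟩, Subtype.ext (mul_inv_cancel₀ hq), Subtype.ext (inv_mul_cancel₀ hq)⟩, rfl⟩

/-- Nakayama: `p` is in the Jacobson radical of a module-finite algebra. -/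
theorem p_mem_jacobson (p : ℕ) [hp : Fact p.Prime] (R : Type) [Ring R] [Algebra (ZLoc p) R]
    [Module.Finite (ZLoc p) R] : (p : R) ∈ Ring.jacobson R := by
  rw [← Ideal.jacobson_bot, Ideal.jacobson, Ideal.mem_sInf]
  rintro m ⟨-, hm⟩
  by_contra hpm
  let I : Ideal (ZLoc p) := Ideal.span {(p : ZLoc p)}
  have hI : I ≤ Ideal.jacobson ⊥ := by
    rw [Ideal.span_le, Set.singleton_subset_iff]
    change _ ∈ Ideal.jacobson ⊥
    rw [Ideal.mem_jacobson_bot]
    intro y
    apply isUnit_of_res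
    rw [map_add, map_mul, map_natCast, map_one]
    simp
  have h1 : (⊤ : Submodule (ZLoc p) R) ≤ m.restrictScalars (ZLoc p) ⊔ I • ⊤ := by
    have h2 : m ⊔ Ideal.span {(p : R)} = ⊤ := by
      apply hm.1.2
      refine lt_of_le_of_ne le_sup_left ?_
      intro h3
      apply hpm
      rw [h3]
      exact (le_sup_right : _ ≤ m ⊔ Ideal.span {(p : R)}) (Ideal.subset_span rfl)
    intro x _
    have hx : x ∈ m ⊔ Ideal.span {(p : R)} := by rw [h2]; trivial
    obtain ⟨y, hy, z, hz, hyz⟩ := Submodule.mem_sup.1 hx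
    obtain ⟨w, hw⟩ := Submodule.mem_span_singleton.1 hz
    refine Submodule.mem_sup.2 ⟨y, hy, z, ?_, hyz⟩
    have : z = (p : ZLoc p) • w := by
      rw [← hw, smul_eq_mul, Algebra.smul_def, map_natCast]
      exact (Nat.cast_commute p w).symm
    rw [this]
    exact Submodule.smul_mem_smul (Ideal.subset_span rfl) trivial
  have h4 : (⊤ : Submodule (ZLoc p) R) ≤ m.restrictScalars (ZLoc p) :=
    Submodule.le_of_le_smul_of_le_jacobson_bot Module.Finite.fg_top hI h1
  apply hm.1.1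
  rw [Ideal.eq_top_iff_one]
  exact h4 (show (1 : R) ∈ (⊤ : Submodule (ZLoc p) R) from trivial)

/-- one minus an element of the radical has a left inverse -/
theorem left_inv_of_jacobson {R : Type} [Ring R] (x : R) (hx : x ∈ Ring.jacobson R) :
    ∃ r : R, r * (1 - x) = 1 := by
  rw [← Ideal.jacobson_bot, Ideal.mem_jacobson_iff] at hx
  obtain ⟨z, hz⟩ := hx (-1)
  refine ⟨z, ?_⟩
  rw [Ideal.mem_bot] at hz
  have : z * (1 - x) - 1 = z * (-1) * x + z - 1 := by noncomm_ring
  rw [← sub_eq_zero, this, hz]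

end Q2.SP
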